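import Mathlib

set_option autoImplicit false

namespace Pool.Agent.H19.GraphComb

open Relation

variable {V : Type} [Fintype V] [DecidableEq V] (G : SimpleGraph V) [DecidableRel G.Adj]

/-- adjacency avoiding the vertex set `M` and the edge `s(v0, w0)` -/
def Gam (v0 w0 : V) (M : Finset V) (a b : V) : Prop :=
  G.Adj a b ∧ s(a, b) ≠ s(v0, w0) ∧ a ∉ M ∧ b ∉ M

/-- the darts leaving a vertex set -/
def bdry (S : Finset V) : Finset (V × V) :=
  Finset.univ.filter (fun p => p.1 ∈ S ∧ p.2 ∉ S ∧ G.Adj p.1 p.2)

/-- connectedness of a finite vertex set (seen from a base point) -/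
def ConnFrom (S : Finset V) (v : V) : Prop :=
  ∀ x ∈ S, ReflTransGen (fun a b => G.Adj a b ∧ a ∈ S ∧ b ∈ S) v x

omit [Fintype V] [DecidableEq V] [DecidableRel G.Adj] in
lemma Gam.symm {v0 w0 : V} {M : Finset V} {a b : V} (h : Gam G v0 w0 M a b) :
    Gam G v0 w0 M b a :=
  ⟨h.1.symm, by rw [Sym2.eq_swap]; exact h.2.1, h.2.2.2, h.2.2.1⟩

omit [Fintype V] [DecidableEq V] [DecidableRel G.Adj] in
/-- a set closed under a relation contains everything reachable -/
lemma closed_of_reach {r : V → V → Prop} {Z : V → Prop} {x y : V} (h : ReflTransGen r x y)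
    (hx : Z x) (hZ : ∀ a b, Z a → r a b → Z b) : Z y := by
  induction h with
  | refl => exact hx
  | tail _ hbc ih => exact hZ _ _ ih hbc

/-- The key combinatorial step. -/
lemma one_side (hdeg : ∀ v, G.degree v ≤ 3)
    (hA : ∀ (S : Finset V) (v : V), v ∈ S → ConnFrom G S v → (∀ x ∈ S, G.degree x = 3) →
      3 ≤ (bdry G S).card)
    (v0 w0 : V) (hadj : G.Adj v0 w0) (M : Finset V) (hv0 : v0 ∉ M) (hw0 : w0 ∉ M)
    (hreach : ReflTransGen (Gam G v0 w0 M) v0 w0)
    (hmax : ∀ x, x ∉ M → x ≠ v0 → x ≠ w0 → (G.degree x ≤ 2 ∨ ∃ y ∈ M, G.Adj x y) →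
      ¬ ReflTransGen (Gam G v0 w0 (insert x M)) v0 w0) :
    G.degree v0 ≤ 2 ∨ ∃ y ∈ M, G.Adj v0 y := by
  classical
  by_contra hcon
  push Not at hcon
  obtain ⟨hd0, hM0⟩ := hcon
  have hne : v0 ≠ w0 := hadj.ne
  -- the set `A`
  let A : V → Prop := fun x => x ∉ M ∧ x ≠ v0 ∧ x ≠ w0 ∧ (G.degree x ≤ 2 ∨ ∃ y ∈ M, G.Adj x y)
  let r : V → V → Prop := fun a b => Gam G v0 w0 M a b ∧ ¬ A b ∧ b ≠ w0
  let H : V → Prop := fun x => ReflTransGen r v0 x
  have f1 : H v0 := ReflTransGen.refl
  have f2 : ∀ x, H x → x ∉ M ∧ ¬ A x ∧ x ≠ w0 := by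
    intro x hx
    refine closed_of_reach (Z := fun x => x ∉ M ∧ ¬ A x ∧ x ≠ w0) hx ?_ ?_
    · exact ⟨hv0, fun h => h.2.1 rfl, hne⟩
    · intro a b _ hab
      exact ⟨hab.1.2.2.2, hab.2.1, hab.2.2⟩
  have f3 : ∀ x, H x → G.degree x = 3 ∧ ∀ y ∈ M, ¬ G.Adj x y := by
    intro x hx
    by_cases hxv : x = v0
    · subst hxv
      exact ⟨le_antisymm (hdeg _) hd0, hM0⟩
    · obtain ⟨h1, h2, h3⟩ := f2 x hx
      have h4 : ¬ (G.degree x ≤ 2 ∨ ∃ y ∈ M, G.Adj x y) := fun h => h2 ⟨h1, hxv, h3, h⟩
      push Not at h4
      exact ⟨le_antisymm (hdeg _) h4.1, h4.2⟩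
  have hstep : ∀ x y, H x → Gam G v0 w0 M x y → ¬ A y → y ≠ w0 → H y := by
    intro x y hx hxy hA' hy
    exact ReflTransGen.tail hx ⟨hxy, hA', hy⟩
  -- edges leaving `H`
  have f4 : ∀ x y, H x → G.Adj x y → ¬ H y →
      (Gam G v0 w0 M x y ∧ (A y ∨ y = w0)) ∨ (x = v0 ∧ y = w0) := by
    intro x y hx hxy hy
    by_cases he : s(x, y) = s(v0, w0)
    · right
      rw [Sym2.eq_iff] at he
      rcases he with h | h
      · exact h
      · exact absurd h.1 (f2 x hx).2.2
    · left
      have hyM : y ∉ M := fun h => (f3 x hx).2 y h hxy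
      have hG : Gam G v0 w0 M x y := ⟨hxy, he, (f2 x hx).1, hyM⟩
      refine ⟨hG, ?_⟩
      by_contra hc
      push Not at hc
      exact hy (hstep x y hx hG hc.1 hc.2)
  -- exits
  let Ex : V → Prop := fun y => (A y ∨ y = w0) ∧ ∃ x, H x ∧ Gam G v0 w0 M x y
  have f5a : ∃ y, Ex y := by
    by_contra hc
    push Not at hc
    have : H w0 := by
      refine closed_of_reach hreach f1 ?_
      intro a b ha hab
      by_contra hb
      rcases f4 a b ha hab.1 hb with h | h
      · exact hc b ⟨h.2, a, ha, hab⟩
      · exact hab.2.1 (by rw [h.1, h.2])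
    exact (f2 w0 this).2.2 rfl
  -- `H` stays reachable when a vertex of `A` is removed
  have hHD : ∀ y, A y → ∀ x, H x → ReflTransGen (Gam G v0 w0 (insert y M)) v0 x := by
    intro y hy x hx
    refine closed_of_reach (Z := fun x => ReflTransGen (Gam G v0 w0 (insert y M)) v0 x ∧ ¬ A x)
      hx ⟨ReflTransGen.refl, (f2 v0 f1).2.1⟩ ?_ |>.1
    intro a b ha hab
    refine ⟨ReflTransGen.tail ha.1 ⟨hab.1.1, hab.1.2.1, ?_, ?_⟩, hab.2.1⟩
    · rw [Finset.mem_insert]
      rintro (h | h)
      · exact ha.2 (h ▸ hy)
      · exact hab.1.2.2.1 h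
    · rw [Finset.mem_insert]
      rintro (h | h)
      · exact hab.2.1 (h ▸ hy)
      · exact hab.1.2.2.2 h
  have hExD : ∀ y, A y → ∀ y', Ex y' → y' ≠ y →
      ReflTransGen (Gam G v0 w0 (insert y M)) v0 y' := by
    intro y hy y' hy' hne'
    obtain ⟨_, x, hx, hxy⟩ := hy'
    refine ReflTransGen.tail (hHD y hy x hx) ⟨hxy.1, hxy.2.1, ?_, ?_⟩
    · rw [Finset.mem_insert]
      rintro (h | h)
      · exact (f2 x hx).2.1 (h ▸ hy)
      · exact hxy.2.2.1 h
    · rw [Finset.mem_insert]
      rintro (h | h)
      · exact hne' h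
      · exact hxy.2.2.2 h
  have hnoA : ∀ y, A y → ¬ ReflTransGen (Gam G v0 w0 (insert y M)) v0 w0 := by
    intro y hy
    exact hmax y hy.1 hy.2.1 hy.2.2.1 hy.2.2.2
  have f5b : ∀ y y', Ex y → Ex y' → y = y' := by
    intro y y' hy hy'
    by_contra hyy
    by_cases hAy : A y
    · by_cases hAy' : A y'
      · -- both separate
        have hclosed : ReflTransGen (Gam G v0 w0 (insert y M)) v0 w0 ∨
            ReflTransGen (Gam G v0 w0 (insert y' M)) v0 w0 := by
          refine closed_of_reach (Z := fun x => ReflTransGen (Gam G v0 w0 (insert y M)) v0 x ∨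
            ReflTransGen (Gam G v0 w0 (insert y' M)) v0 x) hreach (Or.inl ReflTransGen.refl) ?_
          intro a b ha hab
          rcases ha with ha | ha
          · by_cases hb : b = y
            · right
              rw [hb]
              exact hExD y' hAy' y hy hyy
            · left
              have haM : a ∉ insert y M := by
                refine closed_of_reach (Z := fun x => x ∉ insert y M) ha ?_ ?_
                · rw [Finset.mem_insert]
                  rintro (h | h)
                  · exact hAy.2.1 h.symm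
                  · exact hv0 h
                · intro c d _ hcd
                  exact hcd.2.2.2
              refine ReflTransGen.tail ha ⟨hab.1, hab.2.1, haM, ?_⟩
              rw [Finset.mem_insert]
              rintro (h | h)
              · exact hb h
              · exact hab.2.2.2 h
          · by_cases hb : b = y'
            · left
              rw [hb]
              exact hExD y hAy y' hy' (Ne.symm hyy)
            · right
              have haM : a ∉ insert y' M := by
                refine closed_of_reach (Z := fun x => x ∉ insert y' M) ha ?_ ?_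
                · rw [Finset.mem_insert]
                  rintro (h | h)
                  · exact hAy'.2.1 h.symm
                  · exact hv0 h
                · intro c d _ hcd
                  exact hcd.2.2.2
              refine ReflTransGen.tail ha ⟨hab.1, hab.2.1, haM, ?_⟩
              rw [Finset.mem_insert]
              rintro (h | h)
              · exact hb h
              · exact hab.2.2.2 h
        rcases hclosed with h | h
        · exact hnoA y hAy h
        · exact hnoA y' hAy' h
      · have hy'w : y' = w0 := hy'.1.resolve_left hAy'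
        have := hExD y hAy y' hy' (Ne.symm hyy)
        rw [hy'w] at this
        exact hnoA y hAy this
    · have hyw : y = w0 := hy.1.resolve_left hAy
      have hAy' : A y' := by
        rcases hy'.1 with h | h
        · exact h
        · exact absurd (hyw.trans h.symm) hyy
      have := hExD y' hAy' y hy hyy
      rw [hyw] at this
      exact hnoA y' hAy' this
  obtain ⟨x1, hx1⟩ := f5a
  -- the finite set `H`
  let HF : Finset V := Finset.univ.filter H
  have memHF : ∀ x, x ∈ HF ↔ H x := by
    intro x
    simp [HF]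
  have hHFdeg : ∀ x ∈ HF, G.degree x = 3 := fun x hx => (f3 x ((memHF x).1 hx)).1
  have hHFconn : ConnFrom G HF v0 := by
    intro x hx
    rw [memHF] at hx
    refine closed_of_reach (Z := fun x =>
      H x ∧ ReflTransGen (fun a b => G.Adj a b ∧ a ∈ HF ∧ b ∈ HF) v0 x) hx
      ⟨f1, ReflTransGen.refl⟩ ?_ |>.2
    intro a b ha hab
    have hb : H b := ReflTransGen.tail ha.1 hab
    exact ⟨hb, ReflTransGen.tail ha.2 ⟨hab.1.1, (memHF a).2 ha.1, (memHF b).2 hb⟩⟩
  have hbd := hA HF v0 ((memHF v0).2 f1) hHFconn hHFdeg
  -- the neighbours of the exit inside `H`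
  let N1 : Finset V := HF.filter (fun x => Gam G v0 w0 M x x1)
  have hsub : bdry G HF ⊆ insert (v0, w0) (N1.image (fun x => (x, x1))) := by
    rintro ⟨x, y⟩ hxy
    simp only [bdry, Finset.mem_filter, Finset.mem_univ, true_and] at hxy
    obtain ⟨hx, hy, hadj'⟩ := hxy
    rw [memHF] at hx
    rw [memHF] at hy
    rcases f4 x y hx hadj' hy with h | h
    · have : y = x1 := f5b y x1 ⟨h.2, x, hx, h.1⟩ hx1
      subst this
      rw [Finset.mem_insert]
      right
      rw [Finset.mem_image]
      refine ⟨x, ?_, rfl⟩
      simp only [N1, Finset.mem_filter]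
      exact ⟨(memHF x).2 hx, h.1⟩
    · rw [h.1, h.2]
      exact Finset.mem_insert_self _ _
  have hcard : (bdry G HF).card ≤ N1.card + 1 := by
    refine (Finset.card_le_card hsub).trans ?_
    refine (Finset.card_insert_le _ _).trans ?_
    exact Nat.add_le_add_right Finset.card_image_le 1
  have hN1sub : N1 ⊆ G.neighborFinset x1 := by
    intro x hx
    simp only [N1, Finset.mem_filter] at hx
    rw [SimpleGraph.mem_neighborFinset]
    exact hx.2.1.symm
  by_cases hx1A : A x1
  · -- the exit lies in `A`
    have f7 : ∃ z, ¬ H z ∧ Gam G v0 w0 M x1 z := by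
      by_contra hc
      push Not at hc
      have : H w0 ∨ w0 = x1 := by
        refine closed_of_reach (Z := fun x => H x ∨ x = x1) hreach (Or.inl f1) ?_
        intro a b ha hab
        rcases ha with ha | ha
        · by_cases hb : H b
          · exact Or.inl hb
          · right
            rcases f4 a b ha hab.1 hb with h | h
            · exact f5b b x1 ⟨h.2, a, ha, hab⟩ hx1
            · exact absurd (by rw [h.1, h.2]) hab.2.1
        · left
          by_contra hb
          rw [ha] at hab
          exact hc b hb hab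
      rcases this with h | h
      · exact (f2 w0 h).2.2 rfl
      · exact hx1A.2.2.1 h.symm
    obtain ⟨z, hzH, hz⟩ := f7
    have hzN : z ∉ N1 := by
      intro h
      simp only [N1, Finset.mem_filter] at h
      exact hzH ((memHF z).1 h.1)
    have hN1le : N1.card ≤ 1 := by
      rcases hx1A.2.2.2 with h | ⟨y, hyM, hy⟩
      · have : insert z N1 ⊆ G.neighborFinset x1 := by
          intro x hx
          rw [Finset.mem_insert] at hx
          rcases hx with rfl | hx
          · rw [SimpleGraph.mem_neighborFinset]
            exact hz.1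
          · exact hN1sub hx
        have hc := Finset.card_le_card this
        rw [Finset.card_insert_of_notMem hzN, SimpleGraph.card_neighborFinset_eq_degree] at hc
        omega
      · have hyN : y ∉ insert z N1 := by
          rw [Finset.mem_insert]
          rintro (h | h)
          · exact hz.2.2.2 (h ▸ hyM)
          · simp only [N1, Finset.mem_filter] at h
            exact (f2 y ((memHF y).1 h.1)).1 hyM
        have : insert y (insert z N1) ⊆ G.neighborFinset x1 := by
          intro x hx
          rw [Finset.mem_insert, Finset.mem_insert] at hx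
          rcases hx with rfl | rfl | hx
          · rw [SimpleGraph.mem_neighborFinset]
            exact hy
          · rw [SimpleGraph.mem_neighborFinset]
            exact hz.1
          · exact hN1sub hx
        have hc := Finset.card_le_card this
        rw [Finset.card_insert_of_notMem hyN, Finset.card_insert_of_notMem hzN,
          SimpleGraph.card_neighborFinset_eq_degree] at hc
        have := hdeg x1
        omega
    omega
  · -- the exit is `w0`
    have hx1w : x1 = w0 := hx1.1.resolve_left hx1A
    have hsub2 : (bdry G HF).image Prod.fst ⊆ G.neighborFinset w0 := by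
      intro x hx
      rw [Finset.mem_image] at hx
      obtain ⟨⟨a, b⟩, hab, rfl⟩ := hx
      have := hsub hab
      rw [Finset.mem_insert, Finset.mem_image] at this
      rw [SimpleGraph.mem_neighborFinset]
      rcases this with h | ⟨x', hx', h⟩
      · have h1 := (Prod.mk.inj h).1
        simp only [h1]
        exact hadj.symm
      · have h1 := (Prod.mk.inj h).1
        simp only [← h1]
        simp only [N1, Finset.mem_filter] at hx'
        rw [hx1w] at hx'
        exact hx'.2.1.symm
    have hinj : ((bdry G HF).image Prod.fst).card = (bdry G HF).card := by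
      refine Finset.card_image_of_injOn ?_
      intro p hp p' hp' hpp
      have key : ∀ q ∈ bdry G HF, q.2 = w0 := by
        intro q hq
        have := hsub hq
        rw [Finset.mem_insert, Finset.mem_image] at this
        rcases this with h | ⟨x', _, h⟩
        · rw [h]
        · rw [← h]
          exact hx1w
      exact Prod.ext hpp ((key p hp).trans (key p' hp').symm)
    have hle := Finset.card_le_card hsub2
    rw [hinj, SimpleGraph.card_neighborFinset_eq_degree] at hle
    have hdw : G.degree w0 = 3 := le_antisymm (hdeg w0) (hbd.trans hle)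
    have heq : (bdry G HF).image Prod.fst = G.neighborFinset w0 := by
      refine Finset.eq_of_subset_of_card_le hsub2 ?_
      rw [hinj, SimpleGraph.card_neighborFinset_eq_degree, hdw]
      exact hbd
    have hnb : ∀ y, G.Adj w0 y → y ∈ HF := by
      intro y hy
      have : y ∈ (bdry G HF).image Prod.fst := by
        rw [heq, SimpleGraph.mem_neighborFinset]
        exact hy
      rw [Finset.mem_image] at this
      obtain ⟨p, hp, rfl⟩ := this
      simp only [bdry, Finset.mem_filter] at hp
      exact hp.2.1
    have h3 := hA (insert w0 HF) v0 (Finset.mem_insert_of_mem ((memHF v0).2 f1)) ?_ ?_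
    · have : bdry G (insert w0 HF) = ∅ := by
        rw [Finset.eq_empty_iff_forall_notMem]
        rintro ⟨x, y⟩ hxy
        simp only [bdry, Finset.mem_filter, Finset.mem_univ, true_and] at hxy
        obtain ⟨hx, hy, hadj'⟩ := hxy
        rw [Finset.mem_insert] at hx
        rw [Finset.mem_insert, not_or] at hy
        rcases hx with rfl | hx
        · exact hy.2 (hnb y hadj')
        · have hx' := (memHF x).1 hx
          have hy' : ¬ H y := fun h => hy.2 ((memHF y).2 h)
          rcases f4 x y hx' hadj' hy' with h | h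
          · have := f5b y x1 ⟨h.2, x, hx', h.1⟩ hx1
            exact hy.1 (this.trans hx1w)
          · exact hy.1 h.2
      rw [this] at h3
      simp at h3
    · intro x hx
      have hmono : ∀ x ∈ HF,
          ReflTransGen (fun a b => G.Adj a b ∧ a ∈ insert w0 HF ∧ b ∈ insert w0 HF) v0 x := by
        intro x hx
        exact ReflTransGen.mono (fun a b hab => ⟨hab.1, Finset.mem_insert_of_mem hab.2.1,
          Finset.mem_insert_of_mem hab.2.2⟩) _ _ (hHFconn x hx)
      rw [Finset.mem_insert] at hx
      rcases hx with rfl | hx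
      · refine ReflTransGen.tail (hmono v0 ((memHF v0).2 f1)) ⟨hadj, ?_, ?_⟩
        · exact Finset.mem_insert_of_mem ((memHF v0).2 f1)
        · exact Finset.mem_insert_self _ _
      · exact hmono x hx
    · intro x hx
      rw [Finset.mem_insert] at hx
      rcases hx with rfl | hx
      · exact hdw
      · exact hHFdeg x hx

omit [Fintype V] [DecidableEq V] [DecidableRel G.Adj] in
lemma reach_symm {v0 w0 : V} {M : Finset V} {a b : V}
    (h : ReflTransGen (Gam G v0 w0 M) a b) : ReflTransGen (Gam G w0 v0 M) b a := by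
  induction h with
  | refl => exact ReflTransGen.refl
  | tail _ hbc ih =>
    refine ReflTransGen.head ?_ ih
    have := Gam.symm G hbc
    exact ⟨this.1, by rw [Sym2.eq_swap (a := w0)]; exact this.2.1, this.2.2.1, this.2.2.2⟩

/-- The combinatorial main lemma: a non-bridge `v0 w0` lies on a cycle (avoiding `M`) such that
both ends of the edge have degree at most two or a neighbour in `M`, where every vertex of `M` is
joined inside `M` to a vertex of degree at most two. -/
lemma exists_good (hdeg : ∀ v, G.degree v ≤ 3)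
    (hA : ∀ (S : Finset V) (v : V), v ∈ S → ConnFrom G S v → (∀ x ∈ S, G.degree x = 3) →
      3 ≤ (bdry G S).card)
    (v0 w0 : V) (hadj : G.Adj v0 w0) (hreach : ReflTransGen (Gam G v0 w0 ∅) v0 w0) :
    ∃ M : Finset V, v0 ∉ M ∧ w0 ∉ M ∧
      (∀ x ∈ M, ∃ z ∈ M, G.degree z ≤ 2 ∧
        ReflTransGen (fun a b => G.Adj a b ∧ a ∈ M ∧ b ∈ M) x z) ∧
      ReflTransGen (Gam G v0 w0 M) v0 w0 ∧
      (G.degree v0 ≤ 2 ∨ ∃ y ∈ M, G.Adj v0 y) ∧ (G.degree w0 ≤ 2 ∨ ∃ y ∈ M, G.Adj w0 y) := by
  classical
  let P : Finset V → Prop := fun M => v0 ∉ M ∧ w0 ∉ M ∧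
      (∀ x ∈ M, ∃ z ∈ M, G.degree z ≤ 2 ∧
        ReflTransGen (fun a b => G.Adj a b ∧ a ∈ M ∧ b ∈ M) x z) ∧
      ReflTransGen (Gam G v0 w0 M) v0 w0
  have hne : (Finset.univ.filter P).Nonempty := by
    refine ⟨∅, ?_⟩
    simp only [P, Finset.mem_filter, Finset.mem_univ, true_and, Finset.notMem_empty,
      not_false_eq_true, false_imp_iff, implies_true]
    exact hreach
  obtain ⟨M, hM, hmax⟩ := Finset.exists_max_image (Finset.univ.filter P) Finset.card hne
  simp only [Finset.mem_filter, Finset.mem_univ, true_and] at hM hmax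
  obtain ⟨h1, h2, h3, h4⟩ := hM
  have key : ∀ x, x ∉ M → x ≠ v0 → x ≠ w0 → (G.degree x ≤ 2 ∨ ∃ y ∈ M, G.Adj x y) →
      ¬ ReflTransGen (Gam G v0 w0 (insert x M)) v0 w0 := by
    intro x hx hxv hxw hxx hr
    have hP : P (insert x M) := by
      refine ⟨?_, ?_, ?_, hr⟩
      · rw [Finset.mem_insert, not_or]
        exact ⟨hxv.symm, h1⟩
      · rw [Finset.mem_insert, not_or]
        exact ⟨hxw.symm, h2⟩
      · have hM' : ∀ y ∈ M, ∃ z ∈ insert x M, G.degree z ≤ 2 ∧
            ReflTransGen (fun a b => G.Adj a b ∧ a ∈ insert x M ∧ b ∈ insert x M) y z := by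
          intro y hy
          obtain ⟨z, hz, hz2, hyz⟩ := h3 y hy
          refine ⟨z, Finset.mem_insert_of_mem hz, hz2, ?_⟩
          exact ReflTransGen.mono (fun a b hab => ⟨hab.1, Finset.mem_insert_of_mem hab.2.1,
            Finset.mem_insert_of_mem hab.2.2⟩) _ _ hyz
        intro y hy
        rw [Finset.mem_insert] at hy
        rcases hy with rfl | hy
        · rcases hxx with h | ⟨w, hw, hyw⟩
          · exact ⟨y, Finset.mem_insert_self _ _, h, ReflTransGen.refl⟩
          · obtain ⟨z, hz, hz2, hwz⟩ := hM' w hw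
            exact ⟨z, hz, hz2, ReflTransGen.head ⟨hyw, Finset.mem_insert_self _ _,
              Finset.mem_insert_of_mem hw⟩ hwz⟩
        · exact hM' y hy
    have := hmax _ hP
    rw [Finset.card_insert_of_notMem hx] at this
    omega
  refine ⟨M, h1, h2, h3, h4, one_side G hdeg hA v0 w0 hadj M h1 h2 h4 key,
    one_side G hdeg hA w0 v0 hadj.symm M h2 h1 (reach_symm G h4) ?_⟩
  intro x hx hxw hxv hxx hr
  exact key x hx hxv hxw hxx (reach_symm G hr)

end Pool.Agent.H19.GraphComb
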