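import Mathlib
import Pool.Agent.H19.GraphComb

set_option autoImplicit false

namespace Pool.Agent.H19.GraphLin

open Relation Pool.Agent.H19.GraphComb

variable {k : Type} [Field k] {U : Type} [AddCommGroup U] [Module k U] [FiniteDimensional k U]
  {V : Type} [Fintype V] [DecidableEq V] (G : SimpleGraph V) [DecidableRel G.Adj]

/-- The linear data of a graph curve: a plane `L v` for every vertex, a node vector `P e` for every
edge, spanning the intersection of the two planes at the ends of the edge. -/
structure Data (L : V → Submodule k U) (P : Sym2 V → U) : Prop where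
  finrank_eq : ∀ v, Module.finrank k (L v) = 2
  mem : ∀ v w, G.Adj v w → P s(v, w) ∈ L v
  meet : ∀ v w, G.Adj v w → ∀ u ∈ L v, u ∈ L w → ∃ t : k, u = t • P s(v, w)
  indep : ∀ v w w', G.Adj v w → G.Adj v w' → w ≠ w' → ∀ a b : k,
    a • P s(v, w) + b • P s(v, w') = 0 → a = 0 ∧ b = 0
  ne_zero : ∀ v w, G.Adj v w → P s(v, w) ≠ 0
  span : ∀ Q : Submodule k U, (∀ v, L v ≤ Q) → Q = ⊤
  dim : Module.finrank k U + G.edgeFinset.card = 2 * Fintype.card V
  degree_le : ∀ v, G.degree v ≤ 3
  exists_small : ∃ v, G.degree v ≤ 2
  conn : ∀ v w, ReflTransGen G.Adj v w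

variable {G} {L : V → Submodule k U} {P : Sym2 V → U}

omit [FiniteDimensional k U] in
lemma pair_zero (hD : Data G L P) (v : V) (S : Finset V) (hS : S.card ≤ 2)
    (hadj : ∀ w ∈ S, G.Adj v w) (c : V → k) (h : ∑ w ∈ S, c w • P s(v, w) = 0) :
    ∀ w ∈ S, c w = 0 := by
  interval_cases hc : S.card
  · rw [Finset.card_eq_zero] at hc
    simp [hc]
  · obtain ⟨a, rfl⟩ := Finset.card_eq_one.1 hc
    intro w hw
    rw [Finset.mem_singleton] at hw
    subst hw
    rw [Finset.sum_singleton, smul_eq_zero] at h
    exact h.resolve_right (hD.ne_zero v w (hadj w (Finset.mem_singleton_self _)))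
  · obtain ⟨a, b, hab, rfl⟩ := Finset.card_eq_two.1 hc
    rw [Finset.sum_pair hab] at h
    obtain ⟨h1, h2⟩ := hD.indep v a b (hadj a (by simp)) (hadj b (by simp)) hab _ _ h
    intro w hw
    rw [Finset.mem_insert, Finset.mem_singleton] at hw
    rcases hw with rfl | rfl
    · exact h1
    · exact h2

omit [FiniteDimensional k U] in
/-- a relation between the nodes at a vertex of degree at most two is trivial -/
lemma loc_a (hD : Data G L P) (v : V) (hv : G.degree v ≤ 2) (c : V → k)
    (hc : ∀ w, ¬ G.Adj v w → c w = 0) (h : ∑ w, c w • P s(v, w) = 0) : ∀ w, c w = 0 := by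
  have h' : ∑ w ∈ G.neighborFinset v, c w • P s(v, w) = 0 := by
    rw [← h]
    refine Finset.sum_subset (Finset.subset_univ _) ?_
    intro w _ hw
    rw [SimpleGraph.mem_neighborFinset] at hw
    rw [hc w hw, zero_smul]
  intro w
  by_cases hw : G.Adj v w
  · refine pair_zero hD v (G.neighborFinset v) (by rwa [SimpleGraph.card_neighborFinset_eq_degree])
      (fun w hw => by rwa [SimpleGraph.mem_neighborFinset] at hw) c h' w ?_
    rwa [SimpleGraph.mem_neighborFinset]
  · exact hc w hw

omit [FiniteDimensional k U] in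
/-- a relation between the nodes at a vertex with one zero coefficient is trivial -/
lemma loc_b (hD : Data G L P) (v : V) (c : V → k)
    (hc : ∀ w, ¬ G.Adj v w → c w = 0) (h : ∑ w, c w • P s(v, w) = 0) (w1 : V)
    (hw1 : G.Adj v w1) (hcw1 : c w1 = 0) : ∀ w, c w = 0 := by
  have h' : ∑ w ∈ (G.neighborFinset v).erase w1, c w • P s(v, w) = 0 := by
    rw [← h]
    refine Finset.sum_subset (Finset.subset_univ _) ?_
    intro w _ hw
    rw [Finset.mem_erase, SimpleGraph.mem_neighborFinset, not_and_or, not_not] at hw
    rcases hw with rfl | hw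
    · rw [hcw1, zero_smul]
    · rw [hc w hw, zero_smul]
  intro w
  by_cases hw : G.Adj v w
  · by_cases hww : w = w1
    · rw [hww]
      exact hcw1
    · refine pair_zero hD v ((G.neighborFinset v).erase w1) ?_ ?_ c h' w ?_
      · rw [Finset.card_erase_of_mem (by rwa [SimpleGraph.mem_neighborFinset]),
          SimpleGraph.card_neighborFinset_eq_degree]
        have := hD.degree_le v
        omega
      · intro w hw
        rw [Finset.mem_erase, SimpleGraph.mem_neighborFinset] at hw
        exact hw.2
      · rw [Finset.mem_erase, SimpleGraph.mem_neighborFinset]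
        exact ⟨hww, hw⟩
  · exact hc w hw

omit [FiniteDimensional k U] in
/-- the node relations are independent -/
lemma rel_indep (hD : Data G L P) (c : V → V → k) (hanti : ∀ v w, c v w = - c w v)
    (hc : ∀ v w, ¬ G.Adj v w → c v w = 0) (h : ∀ v, ∑ w, c v w • P s(v, w) = 0) :
    ∀ v w, c v w = 0 := by
  obtain ⟨z, hz⟩ := hD.exists_small
  intro v
  have : ∀ w, c v w = 0 := by
    refine closed_of_reach (Z := fun v => ∀ w, c v w = 0) (hD.conn z v) ?_ ?_
    · exact loc_a hD z hz (c z) (hc z) (h z)
    · intro a b ha hab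
      refine loc_b hD b (c b) (hc b) (h b) a hab.symm ?_
      rw [hanti, ha, neg_zero]
  exact this

/-- The kernel of the sum map is spanned by the node relations. -/
lemma kernel (hD : Data G L P) (s : V → U) (hs : ∀ v, s v ∈ L v) (hsum : ∑ v, s v = 0) :
    ∃ c : V → V → k, (∀ v w, c v w = - c w v) ∧ (∀ v w, ¬ G.Adj v w → c v w = 0) ∧
      ∀ v, s v = ∑ w, c v w • P s(v, w) := by
  classical
  -- an orientation
  obtain ⟨ι, hι⟩ : ∃ ι : V → ℕ, Function.Injective ι :=
    ⟨fun v => (Fintype.equivFin V v : ℕ), fun a b h => by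
      apply (Fintype.equivFin V).injective
      exact Fin.ext h⟩
  let sg : V → V → k := fun v w => if ι v < ι w then 1 else -1
  let ext : (G.edgeSet → k) → Sym2 V → k := fun y e => if h : e ∈ G.edgeSet then y ⟨e, h⟩ else 0
  let co : (G.edgeSet → k) → V → V → k := fun y v w => sg v w * ext y s(v, w)
  have co_anti : ∀ y v w, co y v w = - co y w v := by
    intro y v w
    by_cases hvw : v = w
    · subst hvw
      have : ext y s(v, v) = 0 := by
        simp only [ext]
        rw [dif_neg]
        rw [SimpleGraph.mem_edgeSet]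
        exact G.loopless.irrefl v
      simp only [co, this, mul_zero, neg_zero]
    · have hne : ι v ≠ ι w := fun h => hvw (hι h)
      simp only [co, sg]
      rw [Sym2.eq_swap (a := w)]
      rcases lt_or_gt_of_ne hne with h | h
      · rw [if_pos h, if_neg (not_lt.2 h.le)]
        ring
      · rw [if_neg (not_lt.2 h.le), if_pos h]
        ring
  have co_supp : ∀ y v w, ¬ G.Adj v w → co y v w = 0 := by
    intro y v w h
    simp only [co, ext]
    rw [dif_neg (by rwa [SimpleGraph.mem_edgeSet]), mul_zero]
  -- the sum map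
  let σ : ((v : V) → L v) →ₗ[k] U :=
    { toFun := fun s => ∑ v, (s v : U)
      map_add' := by
        intro a b
        simp [Finset.sum_add_distrib]
      map_smul' := by
        intro t a
        simp [Finset.smul_sum] }
  have hσ : LinearMap.range σ = ⊤ := by
    refine hD.span _ ?_
    intro v u hu
    refine ⟨Pi.single v ⟨u, hu⟩, ?_⟩
    change ∑ w, ((Pi.single v (⟨u, hu⟩ : L v) : (v : V) → L v) w : U) = u
    rw [Finset.sum_eq_single v]
    · rw [Pi.single_eq_same]
    · intro b _ hb
      rw [Pi.single_eq_of_ne hb]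
      rfl
    · intro h
      exact absurd (Finset.mem_univ v) h
  have hker : Module.finrank k (LinearMap.ker σ) = G.edgeFinset.card := by
    have h1 := LinearMap.finrank_range_add_finrank_ker σ
    rw [hσ, finrank_top, Module.finrank_pi_fintype] at h1
    simp only [hD.finrank_eq, Finset.sum_const, Finset.card_univ, smul_eq_mul] at h1
    have h2 := hD.dim
    omega
  -- the relation map
  have co_add : ∀ y z v w, co (y + z) v w = co y v w + co z v w := by
    intro y z v w
    simp only [co, ext]
    split_ifs
    · simp only [Pi.add_apply]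
      ring
    · ring
  have co_smul : ∀ (t : k) y v w, co (t • y) v w = t * co y v w := by
    intro t y v w
    simp only [co, ext]
    split_ifs
    · simp only [Pi.smul_apply, smul_eq_mul]
      ring
    · ring
  have rel_mem : ∀ y v, ∑ w, co y v w • P s(v, w) ∈ L v := by
    intro y v
    refine Submodule.sum_mem _ fun w _ => ?_
    by_cases h : G.Adj v w
    · exact Submodule.smul_mem _ _ (hD.mem v w h)
    · rw [co_supp y v w h, zero_smul]
      exact Submodule.zero_mem _
  have rel_sum : ∀ y, ∑ v, ∑ w, co y v w • P s(v, w) = 0 := by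
    intro y
    -- pair up darts according to the orientation
    have e1 : ∀ v w, co y v w • P s(v, w) = (if ι v < ι w then ext y s(v, w) • P s(v, w) else 0)
        - (if ι w < ι v then ext y s(w, v) • P s(w, v) else 0) := by
      intro v w
      by_cases hvw : v = w
      · subst hvw
        rw [co_supp y v v (G.loopless.irrefl v)]
        simp
      · have hne : ι v ≠ ι w := fun h => hvw (hι h)
        simp only [co, sg]
        rcases lt_or_gt_of_ne hne with h | h
        · rw [if_pos h, if_pos h, if_neg (not_lt.2 h.le)]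
          simp
        · rw [if_neg (not_lt.2 h.le), if_neg (not_lt.2 h.le), if_pos h, Sym2.eq_swap (a := w)]
          simp
    simp only [e1, Finset.sum_sub_distrib]
    rw [sub_eq_zero]
    exact Finset.sum_comm
  let ρ : (G.edgeSet → k) →ₗ[k] LinearMap.ker σ :=
    { toFun := fun y => ⟨fun v => ⟨∑ w, co y v w • P s(v, w), rel_mem y v⟩, rel_sum y⟩
      map_add' := by
        intro y z
        ext v
        simp [co_add, add_smul, Finset.sum_add_distrib]
      map_smul' := by
        intro t y
        ext v
        simp [co_smul, mul_smul, Finset.smul_sum] }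
  have hinj : Function.Injective ρ := by
    rw [← LinearMap.ker_eq_bot, LinearMap.ker_eq_bot']
    intro y hy
    have h1 : ∀ v, ∑ w, co y v w • P s(v, w) = 0 := by
      intro v
      have := congrArg (fun z : LinearMap.ker σ => ((z : (v : V) → L v) v : U)) hy
      exact this
    have h2 := rel_indep hD (co y) (co_anti y) (co_supp y) h1
    ext ⟨e, he⟩
    induction e using Sym2.ind with
    | _ v w =>
      have := h2 v w
      simp only [co, ext] at this
      rw [dif_pos he] at this
      rcases mul_eq_zero.1 this with h | h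
      · exfalso
        simp only [sg] at h
        split_ifs at h
        · exact one_ne_zero h
        · exact one_ne_zero (neg_eq_zero.1 h)
      · exact h
  have hfr : Module.finrank k (G.edgeSet → k) = Module.finrank k (LinearMap.ker σ) := by
    rw [hker, Module.finrank_fintype_fun_eq_card, SimpleGraph.edgeFinset_card]
  have hsurj := (LinearMap.injective_iff_surjective_of_finrank_eq_finrank hfr).1 hinj
  obtain ⟨y, hy⟩ := hsurj ⟨fun v => ⟨s v, hs v⟩, hsum⟩
  refine ⟨co y, co_anti y, co_supp y, ?_⟩
  intro v
  have := congrArg (fun z : LinearMap.ker σ => ((z : (v : V) → L v) v : U)) hy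
  exact this.symm

/-- Along a non-bridge the family `a` does not jump. -/
lemma no_jump (hD : Data G L P)
    (hA : ∀ (S : Finset V) (v : V), v ∈ S → ConnFrom G S v → (∀ x ∈ S, G.degree x = 3) →
      3 ≤ (bdry G S).card)
    (a : V → U) (ha : ∀ v w, G.Adj v w → ∃ t : k, a v - a w = t • P s(v, w))
    (v0 w0 : V) (hadj : G.Adj v0 w0) (hreach : ReflTransGen (Gam G v0 w0 ∅) v0 w0) :
    a v0 = a w0 := by
  classical
  obtain ⟨M, hv0, hw0, hM, hr, hdv, hdw⟩ := exists_good G hD.degree_le hA v0 w0 hadj hreach
  have hne : v0 ≠ w0 := hadj.ne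
  let N : V → Prop := fun x => x ∉ M ∧ x ≠ v0 ∧ x ≠ w0
  let Q : Submodule k U :=
    { carrier := {u | ∃ s : V → U, (∀ x, s x ∈ L x) ∧ (∀ x, ¬ N x → s x = 0) ∧ ∑ x, s x = u}
      add_mem' := by
        rintro u u' ⟨s, h1, h2, h3⟩ ⟨s', h1', h2', h3'⟩
        refine ⟨s + s', fun x => Submodule.add_mem _ (h1 x) (h1' x), fun x hx => ?_, ?_⟩
        · simp [h2 x hx, h2' x hx]
        · simp [Finset.sum_add_distrib, h3, h3']
      zero_mem' := ⟨0, fun x => Submodule.zero_mem _, fun _ _ => rfl, by simp⟩
      smul_mem' := by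
        rintro t u ⟨s, h1, h2, h3⟩
        refine ⟨t • s, fun x => Submodule.smul_mem _ _ (h1 x), fun x hx => ?_, ?_⟩
        · simp [h2 x hx]
        · simp [← Finset.smul_sum, h3] }
  have hLQ : ∀ x, N x → ∀ u ∈ L x, u ∈ Q := by
    intro x hx u hu
    refine ⟨Pi.single x u, ?_, ?_, ?_⟩
    · intro y
      by_cases hy : y = x
      · subst hy
        rwa [Pi.single_eq_same]
      · rw [Pi.single_eq_of_ne hy]
        exact Submodule.zero_mem _
    · intro y hy
      have : y ≠ x := fun h => hy (h ▸ hx)
      rw [Pi.single_eq_of_ne this]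
    · simp
  -- the node of the edge is not in `Q`
  have hPQ : P s(v0, w0) ∉ Q := by
    rintro ⟨s, h1, h2, h3⟩
    have hsum : ∑ x, (s x - (Pi.single v0 (P s(v0, w0)) : V → U) x) = 0 := by
      rw [Finset.sum_sub_distrib, h3]
      simp
    obtain ⟨c, hanti, hsupp, hc⟩ := kernel hD
      (fun x => s x - (Pi.single v0 (P s(v0, w0)) : V → U) x) (by
        intro x
        refine Submodule.sub_mem _ (h1 x) ?_
        by_cases hx : x = v0
        · subst hx
          rw [Pi.single_eq_same]
          exact hD.mem _ _ hadj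
        · rw [Pi.single_eq_of_ne hx]
          exact Submodule.zero_mem _) hsum
    -- vanishing on `M`
    have hMz : ∀ x ∈ M, ∑ w, c x w • P s(x, w) = 0 := by
      intro x hx
      have hxv : x ≠ v0 := fun h => hv0 (h ▸ hx)
      rw [← hc x, h2 x (fun h => h.1 hx), Pi.single_eq_of_ne hxv, sub_zero]
    have hMzero : ∀ x ∈ M, ∀ w, c x w = 0 := by
      intro x hx
      obtain ⟨z, hz, hz2, hxz⟩ := hM x hx
      have key : x ∈ M → ∀ w, c x w = 0 := by
        refine ReflTransGen.head_induction_on (motive := fun x _ => x ∈ M → ∀ w, c x w = 0)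
          hxz ?_ ?_
        · intro _
          exact loc_a hD z hz2 (c z) (hsupp z) (hMz z hz)
        · intro p q hpq _ ih hp
          refine loc_b hD p (c p) (hsupp p) (hMz p hp) q hpq.1 ?_
          rw [hanti, ih hpq.2.2 p, neg_zero]
      exact key hx
    -- vanishing at `w0`
    have hw0z : ∑ w, c w0 w • P s(w0, w) = 0 := by
      rw [← hc w0, h2 w0 (fun h => h.2.2 rfl), Pi.single_eq_of_ne hne.symm, sub_zero]
    have hw0zero : ∀ w, c w0 w = 0 := by
      rcases hdw with h | ⟨y, hy, hyw⟩
      · exact loc_a hD w0 h (c w0) (hsupp w0) hw0z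
      · refine loc_b hD w0 (c w0) (hsupp w0) hw0z y hyw ?_
        rw [hanti, hMzero y hy w0, neg_zero]
    have hv0w0 : c v0 w0 = 0 := by
      rw [hanti, hw0zero v0, neg_zero]
    -- contradiction at `v0`
    have hv0z : ∑ w, (c v0 w + (if w = w0 then 1 else 0)) • P s(v0, w) = 0 := by
      simp only [add_smul, Finset.sum_add_distrib, ite_smul, one_smul, zero_smul,
        Finset.sum_ite_eq', Finset.mem_univ, if_true]
      rw [← hc v0, h2 v0 (fun h => h.2.1 rfl), Pi.single_eq_same]
      simp
    have hsupp' : ∀ w, ¬ G.Adj v0 w → c v0 w + (if w = w0 then (1 : k) else 0) = 0 := by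
      intro w hw
      have : w ≠ w0 := by
        rintro rfl
        exact hw hadj
      rw [hsupp v0 w hw, if_neg this, add_zero]
    have hall : ∀ w, c v0 w + (if w = w0 then (1 : k) else 0) = 0 := by
      rcases hdv with h | ⟨y, hy, hyv⟩
      · exact loc_a hD v0 h _ hsupp' hv0z
      · refine loc_b hD v0 _ hsupp' hv0z y hyv ?_
        have : y ≠ w0 := fun h => hw0 (h ▸ hy)
        rw [hanti, hMzero y hy v0, if_neg this, neg_zero, add_zero]
    have := hall w0
    rw [hv0w0, if_pos rfl, zero_add] at this
    exact one_ne_zero this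
  obtain ⟨f, hf1, hf2⟩ := Submodule.exists_le_ker_of_notMem hPQ
  have hconst : f (a w0) = f (a v0) := by
    refine closed_of_reach (Z := fun x => f (a x) = f (a v0)) hr rfl ?_
    intro x y hx hxy
    obtain ⟨t, ht⟩ := ha x y hxy.1
    have hP : f (P s(x, y)) = 0 := by
      have hmem : P s(x, y) ∈ Q := by
        by_cases hxN : N x
        · exact hLQ x hxN _ (hD.mem x y hxy.1)
        · have hyN : N y := by
            refine ⟨hxy.2.2.2, ?_, ?_⟩
            · rintro rfl
              have hx1 : ¬ (x ≠ y ∧ x ≠ w0) := fun h => hxN ⟨hxy.2.2.1, h⟩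
              have hx2 : x = w0 := by
                by_contra h
                exact hx1 ⟨hxy.1.ne, h⟩
              apply hxy.2.1
              rw [hx2]
              exact Sym2.eq_swap
            · rintro rfl
              have hx1 : ¬ (x ≠ v0 ∧ x ≠ y) := fun h => hxN ⟨hxy.2.2.1, h⟩
              have hx2 : x = v0 := by
                by_contra h
                exact hx1 ⟨h, hxy.1.ne⟩
              apply hxy.2.1
              rw [hx2]
          have := hLQ y hyN _ (hD.mem y x hxy.1.symm)
          rwa [Sym2.eq_swap] at this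
      exact hf2 hmem
    have h2 : f (a x) - f (a y) = 0 := by
      rw [← map_sub, ht, map_smul, hP, smul_zero]
    rw [← hx]
    exact (sub_eq_zero.1 h2).symm
  obtain ⟨t, ht⟩ := ha v0 w0 hadj
  have h3 : t * f (P s(v0, w0)) = 0 := by
    have : f (a v0 - a w0) = 0 := by
      rw [map_sub, hconst, sub_self]
    rw [ht, map_smul, smul_eq_mul] at this
    exact this
  have ht0 : t = 0 := (mul_eq_zero.1 h3).resolve_right hf1
  rw [ht0, zero_smul] at ht
  exact sub_eq_zero.1 ht

omit [DecidableEq V] in
/-- A family of linear maps on the planes that agrees at the nodes comes from a linear map on the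
whole space. -/
lemma extend (hD : Data G L P) [CharZero k] {W : Type} [AddCommGroup W] [Module k W]
    (f : V → (U →ₗ[k] W)) (hf : ∀ v w, G.Adj v w → f v (P s(v, w)) = f w (P s(v, w))) :
    ∃ F : U →ₗ[k] W, ∀ v, ∀ u ∈ L v, F u = f v u := by
  classical
  let σ : ((v : V) → L v) →ₗ[k] U :=
    { toFun := fun s => ∑ v, (s v : U)
      map_add' := by
        intro a b
        simp [Finset.sum_add_distrib]
      map_smul' := by
        intro t a
        simp [Finset.smul_sum] }
  let Φ : ((v : V) → L v) →ₗ[k] W :=
    { toFun := fun s => ∑ v, f v (s v : U)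
      map_add' := by
        intro a b
        simp [Finset.sum_add_distrib]
      map_smul' := by
        intro t a
        simp [Finset.smul_sum] }
  have single_sum : ∀ (v : V) (u : U) (hu : u ∈ L v) (g : V → U → W), (∀ w, g w 0 = 0) →
      ∑ w, g w ((Pi.single v (⟨u, hu⟩ : L v) : (v : V) → L v) w : U) = g v u := by
    intro v u hu g hg
    rw [Finset.sum_eq_single v]
    · rw [Pi.single_eq_same]
    · intro b _ hb
      rw [Pi.single_eq_of_ne hb]
      exact hg b
    · intro h
      exact absurd (Finset.mem_univ v) h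
  have single_sum' : ∀ (v : V) (u : U) (hu : u ∈ L v),
      ∑ w, ((Pi.single v (⟨u, hu⟩ : L v) : (v : V) → L v) w : U) = u := by
    intro v u hu
    rw [Finset.sum_eq_single v]
    · rw [Pi.single_eq_same]
    · intro b _ hb
      rw [Pi.single_eq_of_ne hb]
      rfl
    · intro h
      exact absurd (Finset.mem_univ v) h
  have hσ : LinearMap.range σ = ⊤ := by
    refine hD.span _ ?_
    intro v u hu
    exact ⟨Pi.single v ⟨u, hu⟩, single_sum' v u hu⟩
  have hker : LinearMap.ker σ ≤ LinearMap.ker Φ := by
    intro s hs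
    have hsum : ∑ v, (s v : U) = 0 := hs
    obtain ⟨c, hanti, hsupp, hc⟩ := kernel hD (fun v => (s v : U)) (fun v => (s v).2) hsum
    change ∑ v, f v (s v : U) = 0
    have e1 : ∀ v, f v (s v : U) = ∑ w, c v w • f v (P s(v, w)) := by
      intro v
      have h0 : (s v : U) = ∑ w, c v w • P s(v, w) := hc v
      rw [h0, map_sum]
      exact Finset.sum_congr rfl fun w _ => map_smul _ _ _
    have e2 : ∀ v w, c v w • f v (P s(v, w)) = - (c w v • f w (P s(w, v))) := by
      intro v w
      by_cases h : G.Adj v w
      · rw [hanti v w, hf v w h, Sym2.eq_swap, neg_smul]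
      · rw [hsupp v w h, hsupp w v (fun h' => h h'.symm)]
        simp
    have e3 : ∑ v, ∑ w, c v w • f v (P s(v, w)) = - ∑ v, ∑ w, c v w • f v (P s(v, w)) := by
      conv_lhs => rw [Finset.sum_comm]
      rw [← Finset.sum_neg_distrib]
      refine Finset.sum_congr rfl fun v _ => ?_
      rw [← Finset.sum_neg_distrib]
      refine Finset.sum_congr rfl fun w _ => ?_
      exact e2 w v
    simp only [e1]
    have e4 : (2 : k) • ∑ v, ∑ w, c v w • f v (P s(v, w)) = 0 := by
      rw [two_smul]
      exact add_eq_zero_iff_eq_neg.2 e3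
    exact (smul_eq_zero.1 e4).resolve_left two_ne_zero
  have hsurj : Function.Surjective σ := LinearMap.range_eq_top.1 hσ
  let F : U →ₗ[k] W := ((LinearMap.ker σ).liftQ Φ hker).comp
    (σ.quotKerEquivOfSurjective hsurj).symm.toLinearMap
  have hF : ∀ s, F (σ s) = Φ s := by
    intro s
    have h1 : (σ.quotKerEquivOfSurjective hsurj).symm (σ s) = Submodule.Quotient.mk s := by
      rw [LinearEquiv.symm_apply_eq]
      rfl
    simp only [F, LinearMap.comp_apply, LinearEquiv.coe_coe]
    rw [h1]
    rfl
  refine ⟨F, ?_⟩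
  intro v u hu
  have h1 := hF (Pi.single v ⟨u, hu⟩)
  have h2 : σ (Pi.single v ⟨u, hu⟩) = u := single_sum' v u hu
  have h3 : Φ (Pi.single v ⟨u, hu⟩) = f v u := single_sum v u hu (fun w => f w) (fun w => map_zero _)
  rw [h2, h3] at h1
  exact h1

end Pool.Agent.H19.GraphLin
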